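import Pool.Agent.Y742.SP.Stm
import Pool.Agent.Helper386.D5V.Helper386_FF_Fund

/-!
# Nonconstant functions on a curve have poles (helper954)
-/

set_option autoImplicit false

namespace Pool.Agent.Y954.SP

open FF Module
open scoped IntermediateField.algebraAdjoinAdjoin

theorem swapF {L K : Type} [Field L] [Field K] [Algebra L K] {t f : K}
    (ht : Transcendental L t) (ha : ∀ b : K, IsAlgebraic (IntermediateField.adjoin L {t}) b)
    (hf : Transcendental L f) : Algebra.IsAlgebraic (IntermediateField.adjoin L {f}) K := by
  have h1 : AlgebraicIndependent L (fun _ : Unit => t) :=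
    (algebraicIndependent_singleton_iff ()).2 ht
  have h1' : AlgebraicIndependent L (fun _ : Unit => f) :=
    (algebraicIndependent_singleton_iff ()).2 hf
  have hb : IsTranscendenceBasis L (fun _ : Unit => t) := by
    rw [h1.isTranscendenceBasis_iff_isAlgebraic, Set.range_const]
    have : Algebra.IsAlgebraic (IntermediateField.adjoin L {t}) K := ⟨ha⟩
    exact Algebra.IsAlgebraic.trans (Algebra.adjoin L {t}) (IntermediateField.adjoin L {t}) K
  have hc := hb.cardinalMk_eq_trdeg
  have hb' : IsTranscendenceBasis L (fun _ : Unit => f) :=
    h1'.isTranscendenceBasis_of_trdeg_le_of_finite (by rw [← hc])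
  have := hb'.isAlgebraic_field
  rwa [Set.range_const] at this

theorem finF {L K : Type} [Field L] [Field K] [Algebra L K] {S : Finset K}
    (hS : IntermediateField.adjoin L (S : Set K) = ⊤) (F : IntermediateField L K)
    [Algebra.IsAlgebraic F K] : FiniteDimensional F K := by
  have h1 : FiniteDimensional F (IntermediateField.adjoin F (S : Set K)) :=
    IntermediateField.finiteDimensional_adjoin
      (fun x _ => (Algebra.IsAlgebraic.isAlgebraic x).isIntegral)
  have h2 : IntermediateField.adjoin F (S : Set K) = ⊤ := by
    rw [eq_top_iff]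
    intro x _
    have hx : x ∈ IntermediateField.adjoin L (S : Set K) := by rw [hS]; trivial
    have hle : IntermediateField.adjoin L (S : Set K) ≤
        (IntermediateField.adjoin F (S : Set K)).restrictScalars L := by
      rw [IntermediateField.adjoin_le_iff]
      intro y hy
      rw [SetLike.mem_coe, IntermediateField.mem_restrictScalars]
      exact IntermediateField.subset_adjoin _ _ hy
    exact hle hx
  rw [h2] at h1
  exact (IntermediateField.topEquiv (F := F) (E := K)).toLinearEquiv.finiteDimensional

theorem exists_pole {L K : Type} [Field L] [CharZero L] [Field K] [Algebra L K] {t f : K}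
    {S : Finset K} (ht : Transcendental L t)
    (ha : ∀ b : K, IsAlgebraic (IntermediateField.adjoin L {t}) b)
    (hS : IntermediateField.adjoin L (S : Set K) = ⊤) (hf : Transcendental L f) :
    ∃ w : Place L K, w.ord f < 0 := by
  have hs : Transcendental L f⁻¹ := fun h => hf (by simpa using h.inv)
  have halg := swapF ht ha hs
  have hfin : FiniteDimensional (IntermediateField.adjoin L {f⁻¹}) K := finF hS _
  have hc0 : CharZero (IntermediateField.adjoin L {f⁻¹}) :=
    charZero_of_injective_algebraMap (algebraMap L _).injective
  let e := Polynomial.algEquivOfTranscendental L f⁻¹ hs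
  have hp : IsPrincipalIdealRing (Algebra.adjoin L {f⁻¹}) :=
    IsPrincipalIdealRing.of_surjective e.toRingHom e.surjective
  have hirr : Irreducible (e Polynomial.X) :=
    (MulEquiv.irreducible_iff e).2 Polynomial.irreducible_X
  have hmax : (Ideal.span {e Polynomial.X}).IsMaximal :=
    PrincipalIdealRing.isMaximal_of_irreducible hirr
  obtain ⟨T, hT, -, hsum⟩ := fundamental (k := L) (A := Algebra.adjoin L {f⁻¹}) (L := K)
    (IntermediateField.adjoin L {f⁻¹}) (e Polynomial.X) hirr.ne_zero hmax
  have hne : T.Nonempty := by
    rw [Finset.nonempty_iff_ne_empty]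
    rintro rfl
    rw [Finset.sum_empty] at hsum
    have := Module.finrank_pos (R := IntermediateField.adjoin L {f⁻¹}) (M := K)
    omega
  obtain ⟨w, hw⟩ := hne
  refine ⟨w, ?_⟩
  have h1 := ((hT w).1 hw).2
  have h2 : algebraMap (Algebra.adjoin L {f⁻¹}) K (e Polynomial.X) = f⁻¹ := by
    simp [e]
  rw [h2, w.ord_inv] at h1
  omega

/-- nonconstant functions have poles -/
theorem sPole : Pool.Agent.Y742.SP.SPole := by
  intro Ω K _ _ _ _ L hL f hf
  obtain ⟨t, S, ht, ha, hS⟩ := hL
  have hc : CharZero L := charZero_of_injective_algebraMap (algebraMap Ω L).injective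
  obtain ⟨w, hw⟩ := exists_pole ht ha hS hf
  refine ⟨{ ord := w.ord
            ord_zero := w.ord_zero
            ord_mul := w.ord_mul
            ord_add := w.ord_add
            ord_const := fun {c} hc => by
              have h1 : algebraMap Ω L c ≠ 0 := fun h => hc ((map_eq_zero _).1 h)
              exact w.ord_const h1
            surj := w.surj }, ?_, hw⟩
  intro a haL ha0
  have h1 : (⟨a, haL⟩ : L) ≠ 0 := fun h => ha0 (congrArg Subtype.val h)
  exact w.ord_const h1

end Pool.Agent.Y954.SP
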